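import Mathlib
import Pool.Agent.N754.MT.Grow

/-!
MP_17a322_nt, Q1: heights of integral points, and growth of entire curves, in families. Bounds which
are linear in the height (in the characteristic function) of the parameters are equivalent to the
absence of Laurent curves in the fibres, for families of closed subvarieties of tori and, more
generally, for families of varieties whose fibres over a torus are points or are covered by Laurent
curves.
-/

set_option autoImplicit false

namespace Pool.Agent.Results.MP_17a322_nt.HeightUniformity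

open MvPolynomial NumberField IsDedekindDomain Pool.Agent.H159R3.Exp

/-- The complex points of the affine scheme over `𝓞 K` given by the polynomials `F i`. -/
def Pts {K : Type} [Field K] {ι : Type} {n : ℕ} (σ : K →+* ℂ)
    (F : ι → MvPolynomial (Fin n) (𝓞 K)) : Set (Fin n → ℂ) :=
  {z | ∀ i, eval₂ (σ.comp (algebraMap (𝓞 K) K)) z (F i) = 0}

/-- `v : ℂ → ℂⁿ` has coordinates given by Laurent polynomials for `t ≠ 0`, its values for `t ≠ 0`
lie in `V`, and its coordinates with index in `A` are constant. -/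
def IsCurve {K : Type} [Field K] {ι : Type} {n : ℕ} (σ : K →+* ℂ)
    (F : ι → MvPolynomial (Fin n) (𝓞 K)) (A : Finset (Fin n)) (v : ℂ → Fin n → ℂ) : Prop :=
  (∀ j, Laur fun t => v t j) ∧ (∀ t, t ≠ 0 → v t ∈ Pts σ F) ∧
    ∀ i ∈ A, ∀ t s, t ≠ 0 → s ≠ 0 → v t i = v s i

/-- (Hypothesis.) Every point `z` of `V` outside `V'` which has the same coordinates with index in
`U ∪ A` as another point of `V` lies on a nonconstant Laurent curve in `V` on which the coordinates
with index in `A` are constant. -/
def FibresCovered {K : Type} [Field K] {ι κ : Type} {n : ℕ} (σ : K →+* ℂ)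
    (F : ι → MvPolynomial (Fin n) (𝓞 K)) (G : κ → MvPolynomial (Fin n) (𝓞 K))
    (U A : Finset (Fin n)) : Prop :=
  ∀ z ∈ Pts σ F, z ∉ Pts σ G → ∀ z' ∈ Pts σ F, (∀ i ∈ U ∪ A, z' i = z i) → z' ≠ z →
    ∃ v : ℂ → Fin n → ℂ, IsCurve σ F A v ∧ v 1 = z ∧ ∃ t, t ≠ 0 ∧ v t ≠ z

/-- The polynomials have degree at most one in the variables with index outside `U`. -/
def LinearOff {R : Type} [CommSemiring R] {ι : Type} {n : ℕ} (F : ι → MvPolynomial (Fin n) R)
    (U : Finset (Fin n)) : Prop :=
  ∀ i, ∀ s ∈ (F i).support, ∑ j ∈ Uᶜ, s j ≤ 1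

/-- The points `x` of `V` over the ring of `S`-integers of `L`. -/
def intPoints {K : Type} [Field K] {ι : Type} {n : ℕ} (F : ι → MvPolynomial (Fin n) (𝓞 K))
    (L : Type) [Field L] [NumberField L] [Algebra K L] (S : Set (HeightOneSpectrum (𝓞 L))) :
    Set (Fin n → L) :=
  {x | (∀ j, x j ∈ S.integer L) ∧
    ∀ i, eval₂ ((algebraMap K L).comp (algebraMap (𝓞 K) K)) x (F i) = 0}

/-- Every nonconstant Laurent curve in a fibre of `V` over the space of parameters lies in `V'`. -/
def LaurentCurvesIn {K : Type} [Field K] {ι κ : Type} {n : ℕ} (σ : K →+* ℂ)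
    (F : ι → MvPolynomial (Fin n) (𝓞 K)) (G : κ → MvPolynomial (Fin n) (𝓞 K))
    (A : Finset (Fin n)) : Prop :=
  ∀ v : ℂ → Fin n → ℂ, IsCurve σ F A v → (∃ t s, t ≠ 0 ∧ s ≠ 0 ∧ v t ≠ v s) →
    ∀ t, t ≠ 0 → v t ∈ Pts σ G

/-- Every nonconstant entire curve in a fibre of `V` over the space of parameters lies in `V'`. -/
def EntireCurvesIn {K : Type} [Field K] {ι κ : Type} {n : ℕ} (σ : K →+* ℂ)
    (F : ι → MvPolynomial (Fin n) (𝓞 K)) (G : κ → MvPolynomial (Fin n) (𝓞 K))
    (A : Finset (Fin n)) : Prop :=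
  ∀ f : ℂ → Fin n → ℂ, Differentiable ℂ f → (∀ z, f z ∈ Pts σ F) →
    (∀ i ∈ A, ∀ z w, f z i = f w i) → (∃ z w, f z ≠ f w) → ∀ z, f z ∈ Pts σ G

/-- The integral points outside `V'` in each fibre over a point of the space of parameters are
finite in number. -/
def FiniteInFibres {K : Type} [Field K] {ι κ : Type} {n : ℕ}
    (F : ι → MvPolynomial (Fin n) (𝓞 K)) (G : κ → MvPolynomial (Fin n) (𝓞 K))
    (A : Finset (Fin n)) : Prop :=
  ∀ (L : Type) [Field L] [NumberField L] [Algebra K L] (S : Set (HeightOneSpectrum (𝓞 L))),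
    S.Finite → ∀ c : Fin n → L,
      {x ∈ intPoints F L S \ intPoints G L S | ∀ i ∈ A, x i = c i}.Finite

/-- The heights of the integral points outside `V'` are bounded linearly in terms of the heights of
the parameters. -/
def HeightsLinear {K : Type} [Field K] {ι κ : Type} {n : ℕ}
    (F : ι → MvPolynomial (Fin n) (𝓞 K)) (G : κ → MvPolynomial (Fin n) (𝓞 K))
    (A : Finset (Fin n)) : Prop :=
  ∀ (L : Type) [Field L] [NumberField L] [Algebra K L] (S : Set (HeightOneSpectrum (𝓞 L))),
    S.Finite → ∃ C : ℝ, ∀ x ∈ intPoints F L S \ intPoints G L S, ∀ j,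
      Height.logHeight₁ (x j) ≤ C * (1 + ∑ i ∈ A, Height.logHeight₁ (x i))

/-- Nevanlinna's proximity function (the characteristic function) of an entire function. -/
noncomputable def m (f : ℂ → ℂ) (r : ℝ) : ℝ := Real.circleAverage (fun z => Real.posLog ‖f z‖) 0 r

/-- The growth of every entire curve in `V` which does not lie in `V'` is bounded linearly in terms
of the growth of the parameters, outside a set of radii of finite measure. -/
def GrowthLinear {K : Type} [Field K] {ι κ : Type} {n : ℕ} (σ : K →+* ℂ)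
    (F : ι → MvPolynomial (Fin n) (𝓞 K)) (G : κ → MvPolynomial (Fin n) (𝓞 K))
    (A : Finset (Fin n)) : Prop :=
  ∀ f : ℂ → Fin n → ℂ, Differentiable ℂ f → (∀ z, f z ∈ Pts σ F) → (∃ z, f z ∉ Pts σ G) →
    ∃ (C : ℝ) (E : Set ℝ), MeasureTheory.volume E < ⊤ ∧ ∀ r, 1 ≤ r → r ∉ E → ∀ j,
      m (fun z => f z j) r ≤ C * (1 + ∑ i ∈ A, m (fun z => f z i) r)

/-- Let `V = {F = 0}` be an affine scheme of finite type over the ring of integers of a number field
`K`, and `V'` its closed subscheme given by `G`. Let `A` be a set of coordinates (the parameters) and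
`U` a set of coordinates without zeros on `V(ℂ)`. Suppose that `F` has degree at most one in the
coordinates outside `U ∪ A` (this is no condition if `U ∪ A` is everything), or, more generally, that
the points of `V(ℂ)` outside `V'` which are not determined by their coordinates with index in
`U ∪ A` lie on nonconstant Laurent curves in their fibre over the space of parameters. Then the
following are equivalent: every nonconstant entire curve in a fibre lies in `V'`; the integral points
outside `V'` in each fibre are finite in number; every nonconstant Laurent curve in a fibre lies in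
`V'`; the heights of the integral points outside `V'` are bounded linearly in terms of the heights of
the parameters; the growth of the entire curves which do not lie in `V'` is bounded linearly in terms
of the growth of the parameters. -/
theorem result {K : Type} [Field K] [NumberField K] {ι κ : Type} [Finite ι] {n : ℕ}
    (σ : K →+* ℂ) (F : ι → MvPolynomial (Fin n) (𝓞 K)) (G : κ → MvPolynomial (Fin n) (𝓞 K))
    (U A : Finset (Fin n)) (hU : ∀ z ∈ Pts σ F, ∀ i ∈ U, z i ≠ 0)
    (hfib : LinearOff F (U ∪ A) ∨ FibresCovered σ F G U A) :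
    List.TFAE [EntireCurvesIn σ F G A, FiniteInFibres F G A, LaurentCurvesIn σ F G A,
      HeightsLinear F G A, GrowthLinear σ F G A] := by
  classical
  have hcov : FibresCovered σ F G U A := by
    rcases hfib with hlin | h
    · intro z hz _ z' hz' hzU hne
      refine ⟨fun t j => z j + (t - 1) * (z' j - z j), ⟨fun j => ?_, fun t _ i => ?_,
        fun i hi t s _ _ => ?_⟩, ?_, 2, two_ne_zero, ?_⟩
      · have h5 : (fun s : ℂ => z j + (s - 1) * (z' j - z j)) =
            fun s => z j + (s + (-1)) * (z' j - z j) := by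
          funext s
          rw [sub_eq_add_neg s 1]
        rw [h5]
        exact (Laur.const _).add ((Laur.id.add (Laur.const _)).mul (Laur.const _))
      · let P : MvPolynomial (Fin n) ℂ := MvPolynomial.map (σ.comp (algebraMap (𝓞 K) K)) (F i)
        have hP : Pool.Agent.N754.LT.LinOff (U ∪ A) P :=
          Pool.Agent.N754.LT.LinOff.map (hlin i) _
        have hev : ∀ x : Fin n → ℂ, eval₂ (σ.comp (algebraMap (𝓞 K) K)) x (F i) = eval x P :=
          fun x => (eval_map _ _ _).symm
        have e1 := Pool.Agent.N754.LT.affine_expand (U ∪ A) P hP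
          (fun j => z j + (t - 1) * (z' j - z j))
        have e2 := Pool.Agent.N754.LT.affine_expand (U ∪ A) P hP z
        have e3 := Pool.Agent.N754.LT.affine_expand (U ∪ A) P hP z'
        simp only [Pool.Agent.N754.LT.ae_eval] at e1 e2 e3
        have z1 : Pool.Agent.N754.LT.z0 (U ∪ A) (fun j => z j + (t - 1) * (z' j - z j)) =
            Pool.Agent.N754.LT.z0 (U ∪ A) z := by
          funext j
          unfold Pool.Agent.N754.LT.z0
          by_cases hj : j ∈ U ∪ A
          · rw [if_pos hj, if_pos hj]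
            show z j + (t - 1) * (z' j - z j) = z j
            rw [hzU j hj, sub_self, mul_zero, add_zero]
          · rw [if_neg hj, if_neg hj]
        have z2 : Pool.Agent.N754.LT.z0 (U ∪ A) z' = Pool.Agent.N754.LT.z0 (U ∪ A) z := by
          funext j
          unfold Pool.Agent.N754.LT.z0
          by_cases hj : j ∈ U ∪ A
          · rw [if_pos hj, if_pos hj, hzU j hj]
          · rw [if_neg hj, if_neg hj]
        have hz0 := hz i
        have hz0' := hz' i
        rw [hev, e2] at hz0
        rw [hev, e3, z2] at hz0'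
        show eval₂ (σ.comp (algebraMap (𝓞 K) K)) (fun j => z j + (t - 1) * (z' j - z j)) (F i) = 0
        rw [hev, e1, z1]
        have h9 : ∑ j ∈ (U ∪ A)ᶜ, (z j + (t - 1) * (z' j - z j)) *
            eval (Pool.Agent.N754.LT.z0 (U ∪ A) z) (pderiv j P) =
            (2 - t) * ∑ j ∈ (U ∪ A)ᶜ, z j * eval (Pool.Agent.N754.LT.z0 (U ∪ A) z) (pderiv j P) +
              (t - 1) * ∑ j ∈ (U ∪ A)ᶜ, z' j *
                eval (Pool.Agent.N754.LT.z0 (U ∪ A) z) (pderiv j P) := by
          rw [Finset.mul_sum, Finset.mul_sum, ← Finset.sum_add_distrib]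
          refine Finset.sum_congr rfl fun j _ => ?_
          ring
        rw [h9]
        linear_combination (2 - t) * hz0 + (t - 1) * hz0'
      · show z i + (t - 1) * (z' i - z i) = z i + (s - 1) * (z' i - z i)
        rw [hzU i (Finset.mem_union_right _ hi), sub_self, mul_zero, mul_zero]
      · funext j
        simp
      · intro h2
        apply hne
        funext j
        have h3 : z j + (2 - 1) * (z' j - z j) = z j := congrFun h2 j
        linear_combination h3
    · exact h
  have hgm : LaurentCurvesIn σ F G A ↔ Pool.Agent.N754.MT.GmFib σ F G A :=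
    ⟨fun h v h1 h2 h3 h4 l t ht => h v ⟨h1, fun t ht i => h2 i t ht, h3⟩ h4 t ht l,
      fun h v h1 h4 t ht l => h v h1.1 (fun i t ht => h1.2.1 t ht i) h1.2.2 h4 l t ht⟩
  have hal : LaurentCurvesIn σ F G A → Pool.Agent.N754.LT.Alone σ F G (U ∪ A) := by
    intro h z z' hz hz' hzU hG
    by_contra hne
    have hzG : z ∉ Pts σ G := fun h => by
      obtain ⟨l, hl⟩ := hG
      exact hl (h l)
    obtain ⟨v, hv1, hv3, t, ht, hv4⟩ := hcov z hz hzG z' hz' hzU hne
    apply hzG
    rw [← hv3]
    exact h v hv1 ⟨t, 1, ht, one_ne_zero, by rw [hv3]; exact hv4⟩ 1 one_ne_zero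
  tfae_have 1 → 3 := fun h => hgm.2 (Pool.Agent.N754.MT.gm_of_ent σ F G A
    fun f h1 h2 h3 h4 z l => h f h1 (fun z i => h2 z i) h3 h4 z l)
  tfae_have 2 → 3 := fun h => hgm.2 (Pool.Agent.N754.MT.gm_of_fin σ F G A
    fun L _ _ _ S hS c => (h L S hS c).subset fun x hx => ⟨⟨hx.1, hx.2.1⟩, hx.2.2⟩)
  tfae_have 5 → 3 := fun h => hgm.2 (Pool.Agent.N754.MT.gm_of_grw σ F G A
    fun f h1 h2 ⟨z, l, h3⟩ => h f h1 (fun z i => h2 z i) ⟨z, fun h4 => h3 (h4 l)⟩)
  tfae_have 4 → 2 := fun h L _ _ _ S hS c =>
    (Pool.Agent.N754.MT.fin_of_hgt F G A (fun L _ _ _ S hS => by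
      obtain ⟨C, hC⟩ := h L S hS
      exact ⟨C, fun x h1 h2 => hC x ⟨h1, h2⟩⟩) L S hS c).subset
      fun x hx => ⟨hx.1.1, hx.1.2, hx.2⟩
  tfae_have 3 → 4 := fun h L _ _ _ S hS => by
    obtain ⟨C, hC⟩ := Pool.Agent.N754.MT.arith σ F G U A hU (hal h) (hgm.1 h) L S hS
    exact ⟨C, fun x hx => hC x hx.1 hx.2⟩
  tfae_have 3 → 1 := fun h f h1 h2 h3 h4 z l =>
    Pool.Agent.N754.MT.ent_of_gm σ F G U A hU (hal h) (hgm.1 h) f h1 h2 h3 h4 z l
  tfae_have 3 → 5 := fun h f h1 h2 ⟨z, h3⟩ => by
    have h4 : ∃ l, eval₂ (σ.comp (algebraMap (𝓞 K) K)) (f z) (G l) ≠ 0 := by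
      by_contra hcon
      push Not at hcon
      exact h3 hcon
    obtain ⟨l, hl⟩ := h4
    exact Pool.Agent.N754.MT.grw_of_gm σ F G U A hU (hal h) (hgm.1 h) f h1 h2 ⟨z, l, hl⟩
  tfae_finish

end Pool.Agent.Results.MP_17a322_nt.HeightUniformity
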