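import Mathlib
import Pool.Agent.N63.MT.Full

set_option autoImplicit false

/-!
# Vojta's inequality on `Y × ℙ^(n-1)`, `Y` a toric variety, at points which are almost integral in `Y`

`Y` is a smooth projective toric variety of dimension `r`, for example `(ℙ^1)^r`, `T = 𝔾_m^r` its torus.
The divisor consists of the boundary `(Y \ T) × ℙ^(n-1)`, of arbitrarily many divisors
`D_j : ∑ a_ji(u) t_i = 0` which are hyperplanes in the fibres, and of arbitrarily many vertical
divisors `V_l : b_l(u) = 0`. The coefficients are arbitrary sections of globally generated line bundles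
of `Y` (the polynomials with exponents in a set `A_j`), over a number field `K` which contains the
ground field `k`. Over the torus fixed points of `Y` the hyperplanes are in general position and `b_l`
does not vanish (for divisors with normal crossings this is necessary). The coordinate `t` of a
rational point `(u, t)` is arbitrary; the heights of `u`, and so of the moving hyperplanes, may be
large compared with the height of `t`.
-/

namespace Pool.Agent.Results.MP_17a322_nt.MovingHyperplanes

open NumberField IsDedekindDomain MvPolynomial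

/-- The places of a number field: the archimedean places and the primes. -/
abbrev Place (k : Type) [Field k] [NumberField k] : Type :=
  InfinitePlace k ⊕ HeightOneSpectrum (𝓞 k)

/-- The absolute value of a place: the usual one for an archimedean place, and `(N p) ^ (-ord_p x)`
for a prime `p`. -/
noncomputable def Place.value {k : Type} [Field k] [NumberField k] (v : Place k) (x : k) : ℝ :=
  match v with
  | Sum.inl w => w x
  | Sum.inr p => FinitePlace.mk p x

/-- The multiplicity: `1` for a real place, `2` for a complex place, `1` for a prime. -/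
noncomputable def Place.mult {k : Type} [Field k] [NumberField k] (v : Place k) : ℝ :=
  match v with
  | Sum.inl w => w.mult
  | Sum.inr _ => 1

/-- The monomial `u ^ I`. -/
def mono {F : Type} [Field F] {r : ℕ} (u : Fin r → F) (I : Fin r →₀ ℕ) : F := ∏ i, u i ^ I i

/-- The value `∑ a_i(u) t_i` of a moving linear form. -/
noncomputable def form {F : Type} [Field F] {r n : ℕ} (a : Fin n → MvPolynomial (Fin r) F)
    (u : Fin r → F) (t : Fin n → F) : F := ∑ i, eval u (a i) * t i

/-- `m` is the only point of `A` where the linear functional `ω` is maximal. -/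
def IsVertex {r : ℕ} (ω : Fin r → ℝ) (A : Finset (Fin r →₀ ℕ)) (m : Fin r →₀ ℕ) : Prop :=
  m ∈ A ∧ ∀ I ∈ A, I ≠ m → ∑ i, ω i * I i < ∑ i, ω i * m i

/-- The divisors `D_j : ∑ i, (a j i)(u) t_i = 0` and `V_l : (b l)(u) = 0`, given by polynomials with
exponents in the sets `A j` and `B l`. -/
structure Components (K : Type) [Field K] (r n : ℕ) where
  q : ℕ
  A : Fin q → Finset (Fin r →₀ ℕ)
  a : Fin q → Fin n → MvPolynomial (Fin r) K
  p : ℕ
  B : Fin p → Finset (Fin r →₀ ℕ)
  b : Fin p → MvPolynomial (Fin r) K
  nonempty_A : ∀ j, (A j).Nonempty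
  nonempty_B : ∀ l, (B l).Nonempty
  support_a : ∀ j i, (a j i).support ⊆ A j
  support_b : ∀ l, (b l).support ⊆ B l

/-- Over the torus fixed points (each generic direction `ω` defines one of them, and `m j` is the
corresponding vertex of `A j`) the hyperplanes, which have the coefficient vectors
`(coeff (m j) (a j i))_i`, are in general position in `ℙ^(n-1)`, and the `V_l` do not contain them. -/
def Components.GeneralPosition {K : Type} [Field K] {r n : ℕ} (D : Components K r n) : Prop :=
  (∀ (ω : Fin r → ℝ) (m : Fin D.q → Fin r →₀ ℕ), (∀ j, IsVertex ω (D.A j) (m j)) →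
    ∀ s : Finset (Fin D.q), s.card ≤ n →
      LinearIndependent K (fun (j : s) (i : Fin n) => coeff (m j) (D.a j i))) ∧
  ∀ (ω : Fin r → ℝ) (m : Fin D.p → Fin r →₀ ℕ), (∀ l, IsVertex ω (D.B l) (m l)) →
    ∀ l, coeff (m l) (D.b l) ≠ 0

section

variable {k K : Type} [Field k] [NumberField k] [Field K] [NumberField K] [Algebra k K] {r n : ℕ}

/-- The point with coordinates in `K`. -/
def ext (K : Type) [Field K] [Algebra k K] {m : ℕ} (x : Fin m → k) : Fin m → K :=
  fun i => algebraMap k K (x i)

/-- The point `(u, t)` does not lie on the components. -/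
def Components.Avoids (D : Components K r n) (u : Fin r → k) (t : Fin n → k) : Prop :=
  (∀ j, form (D.a j) (ext K u) (ext K t) ≠ 0) ∧ ∀ l, eval (ext K u) (D.b l) ≠ 0

/-- The proximity function `m_S` of `∑ D_j + ∑ V_l`: `w v` is a place of `K` above `v` and
`|.|_(w v) ^ (τ v)` extends `|.|_v`; the local heights are
`log (max_(I ∈ A j) |u ^ I| * max |t_i| / |∑ a_ji(u) t_i|)` and
`log (max_(I ∈ B l) |u ^ I| / |b_l(u)|)`. -/
noncomputable def proximity (S : Finset (Place k)) (w : Place k → Place K) (τ : Place k → ℝ)
    (D : Components K r n) (u : Fin r → k) (t : Fin n → k) : ℝ :=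
  ∑ v ∈ S, v.mult * τ v *
    (∑ j, Real.log ((⨆ I : {I // I ∈ D.A j}, (w v).value (mono (ext K u) I.1)) *
        (⨆ i, (w v).value (ext K t i)) / (w v).value (form (D.a j) (ext K u) (ext K t))) +
      ∑ l, Real.log ((⨆ I : {I // I ∈ D.B l}, (w v).value (mono (ext K u) I.1)) /
        (w v).value (eval (ext K u) (D.b l))))

/-- The proximity function of the boundary of `(ℙ^1)^r` (the divisors `u_i = 0` and `u_i = ∞`). -/
noncomputable def boundaryProximity (S : Finset (Place k)) (u : Fin r → k) : ℝ :=
  ∑ i, ∑ v ∈ S, v.mult * |Real.log (v.value (u i))|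

/-- The counting function `N_S` of the boundary of `(ℙ^1)^r`: its height minus its proximity
function. -/
noncomputable def outside (S : Finset (Place k)) (u : Fin r → k) : ℝ :=
  2 * ∑ i, Height.logHeight₁ (u i) - boundaryProximity S u

/-- The canonical height of `(ℙ^1)^r × ℙ^(n-1)`. -/
noncomputable def canonicalHeight (u : Fin r → k) (t : Fin n → k) : ℝ :=
  -(2 * ∑ i, Height.logHeight₁ (u i)) - n * Height.logHeight t

end

/-- Let the components be in general position over the torus fixed points, `S` a finite set of places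
of `k` and `ε > 0`. There are finitely many moving hyperplanes `Z` over `k` and constants `C₁`, `C₂`
such that all points `(u, t)` of `T × ℙ^(n-1)` over `k` outside `Z` satisfy
`m_(S, D) + h_K ≤ ε (h(u) + h(t)) + C₁ N_S(u) + C₂`, where `D` contains the boundary. If `u_1, …, u_r`
are `S`-units, then `N_S(u) = 0`. (All heights are relative to `k`, not divided by `[k : ℚ]`.) -/
theorem result (k K : Type) [Field k] [NumberField k] [Field K] [NumberField K] [Algebra k K]
    (r n : ℕ) (hn : 1 ≤ n) (D : Components K r n) (hD : D.GeneralPosition)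
    (S : Finset (Place k)) (w : Place k → Place K) (τ : Place k → ℝ) (hτ : ∀ v ∈ S, 0 < τ v)
    (hw : ∀ v ∈ S, ∀ x : k, (w v).value (algebraMap k K x) ^ τ v = v.value x)
    (ε : ℝ) (hε : 0 < ε) :
    (∃ (Z : Finset (Fin n → MvPolynomial (Fin r) k)) (C₁ C₂ : ℝ), (∀ P ∈ Z, P ≠ 0) ∧ 0 ≤ C₁ ∧
      ∀ (u : Fin r → k) (t : Fin n → k), (∀ i, u i ≠ 0) → t ≠ 0 → (∀ P ∈ Z, form P u t ≠ 0) →
        D.Avoids u t ∧
        boundaryProximity S u + proximity S w τ D u t + canonicalHeight u t ≤
          ε * (∑ i, Height.logHeight₁ (u i) + Height.logHeight t) + C₁ * outside S u + C₂) ∧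
    ∀ u : Fin r → k, (∀ i, u i ≠ 0) → 0 ≤ outside S u ∧
      ((∀ i v, v ∉ S → v.value (u i) = 1) → outside S u = 0) := by
  classical
  have hav : ∀ {F : Type} [Field F] [NumberField F] (v : Place F) (x : F),
      Pool.Agent.W180.OP.av v x = v.value x := by
    intro F _ _ v x
    rcases v with v | v <;> rfl
  have hwt : ∀ v : Place k, Pool.Agent.W180.OP.wt v = v.mult := by
    intro v
    rcases v with v | v <;> rfl
  have hex : ∀ u : Fin r → k, ∑ i, Pool.Agent.N63.MT.ex S (u i) = outside S u := by
    intro u
    unfold Pool.Agent.N63.MT.ex outside boundaryProximity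
    rw [Finset.sum_sub_distrib, Finset.mul_sum]
    simp only [hav, hwt]
  refine ⟨?_, fun u hu => ⟨?_, fun hS => ?_⟩⟩
  · obtain ⟨Z, C1, C2, hC1, hZ, hmain⟩ := Pool.Agent.N63.MT.full_main S w τ hτ
      (fun v hv x => by rw [hav, hav]; exact hw v hv x) hn D.A D.nonempty_A D.a D.support_a
      (fun ω m hm s hs => hD.1 ω m (fun j => hm j) s hs) D.B D.nonempty_B D.b
      (fun ω m hm l => hD.2 ω m (fun l => hm l) l) ε hε
    refine ⟨Z, C1, C2, hZ, hC1, fun u t hu ht hZu => ?_⟩
    obtain ⟨h1, h2, h3⟩ := hmain u t hu hZu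
    refine ⟨⟨h1, h2⟩, ?_⟩
    have htK : ext K t ≠ 0 := by
      intro h
      apply ht
      funext i
      have := congrFun h i
      exact (map_eq_zero _).1 this
    have hprox : proximity S w τ D u t = ∑ v ∈ S, Pool.Agent.W180.OP.wt v * τ v *
        (∑ j, Pool.Agent.N63.MT.lh (Pool.Agent.W180.OP.av (w v)) D.A D.a
          (Pool.Agent.N63.MT.ku K u) (Pool.Agent.N63.MT.ku K t) (Sum.inl j) +
          ∑ l, (Real.log (Pool.Agent.N63.MT.nA (Pool.Agent.W180.OP.av (w v)) (D.B l)
            (Pool.Agent.N63.MT.ku K u)) -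
            Real.log (Pool.Agent.W180.OP.av (w v) (eval (Pool.Agent.N63.MT.ku K u) (D.b l))))) := by
      unfold proximity
      refine Finset.sum_congr rfl fun v _ => ?_
      rw [hwt]
      congr 1
      have hs : 0 < Pool.Agent.N63.MT.sn (Pool.Agent.W180.OP.av (w v))
          (Pool.Agent.N63.MT.ku K t) := Pool.Agent.N63.MT.sn_pos _ htK
      have hA : ∀ j, 0 < Pool.Agent.N63.MT.nA (Pool.Agent.W180.OP.av (w v)) (D.A j)
          (Pool.Agent.N63.MT.ku K u) := fun j =>
        Pool.Agent.N63.MT.nA_pos _ (D.nonempty_A j) (Pool.Agent.N63.MT.ku_ne hu)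
      have hB : ∀ l, 0 < Pool.Agent.N63.MT.nA (Pool.Agent.W180.OP.av (w v)) (D.B l)
          (Pool.Agent.N63.MT.ku K u) := fun l =>
        Pool.Agent.N63.MT.nA_pos _ (D.nonempty_B l) (Pool.Agent.N63.MT.ku_ne hu)
      congr 1
      · refine Finset.sum_congr rfl fun j _ => ?_
        have e : Real.log ((⨆ I : {I // I ∈ D.A j}, (w v).value (mono (ext K u) I.1)) *
            (⨆ i, (w v).value (ext K t i)) / (w v).value (form (D.a j) (ext K u) (ext K t))) =
            Real.log (Pool.Agent.N63.MT.nA (Pool.Agent.W180.OP.av (w v)) (D.A j)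
            (Pool.Agent.N63.MT.ku K u) * Pool.Agent.N63.MT.sn (Pool.Agent.W180.OP.av (w v))
            (Pool.Agent.N63.MT.ku K t) / Pool.Agent.W180.OP.av (w v)
              (Pool.Agent.N63.MT.lv (D.a j) (Pool.Agent.N63.MT.ku K u)
                (Pool.Agent.N63.MT.ku K t))) := by
          rcases w v with x | x <;> rfl
        rw [e, Real.log_div (mul_pos (hA j) hs).ne'
          ((Pool.Agent.W180.OP.av (w v)).pos_iff.2 (h1 j)).ne',
          Real.log_mul (hA j).ne' hs.ne']
        rfl
      · refine Finset.sum_congr rfl fun l _ => ?_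
        have e : Real.log ((⨆ I : {I // I ∈ D.B l}, (w v).value (mono (ext K u) I.1)) /
            (w v).value (eval (ext K u) (D.b l))) =
            Real.log (Pool.Agent.N63.MT.nA (Pool.Agent.W180.OP.av (w v)) (D.B l)
            (Pool.Agent.N63.MT.ku K u) / Pool.Agent.W180.OP.av (w v)
              (eval (Pool.Agent.N63.MT.ku K u) (D.b l))) := by
          rcases w v with x | x <;> rfl
        rw [e, Real.log_div (hB l).ne'
          ((Pool.Agent.W180.OP.av (w v)).pos_iff.2 (h2 l)).ne']
    have h4 : 0 ≤ outside S u := by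
      rw [← hex]
      exact Finset.sum_nonneg fun i _ => (Pool.Agent.N63.MT.ex_facts S (hu i)).2.2.1
    rw [← hprox, hex] at h3
    have h5 : boundaryProximity S u = 2 * ∑ i, Height.logHeight₁ (u i) - outside S u := by
      unfold outside
      ring
    rw [h5]
    unfold canonicalHeight
    linarith
  · rw [← hex]
    exact Finset.sum_nonneg fun i _ => (Pool.Agent.N63.MT.ex_facts S (hu i)).2.2.1
  · rw [← hex]
    refine Finset.sum_eq_zero fun i _ => ?_
    exact Pool.Agent.N63.MT.ex_unit S (hu i) fun v hv => by rw [hav]; exact hS i v hv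

end Pool.Agent.Results.MP_17a322_nt.MovingHyperplanes
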