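import Mathlib
import Pool.Agent.N750.ResS

set_option autoImplicit false

/-!
# Vojta's inequality for the points which lie on linear subspaces of small height

`k ⊂ K` are number fields, `X ⊂ ℙ^(M - 1)` is any smooth projective variety over `k` of dimension
`n ≥ 1` (the equations `G i` generate its prime ideal), `D = D_1 + ⋯ + D_q` is a divisor with normal
crossings on `X` whose components are hyperplane sections `X ∩ {H_s = 0}` over `K`, `q` arbitrary, and
`S` is any finite set of places of `K` which contains the archimedean ones.

Vojta's inequality holds for the points `x` of `X(K)` outside a proper closed subset `Z` which lie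
on a linear subspace `Λ ⊂ X` over `K` of any dimension with `h(Λ) ≤ δ h(x)`, where `δ > 0` depends on
`ε` and `S`. The closed subset `Z` depends only on `X` and `D`; the linear subspace `Λ` varies with the
point. For `X = ℙ^n = Λ` this is the subspace theorem of Schmidt. Other examples are the points in the
fibres of small height of scrolls and Segre varieties, and the lines and planes on hypersurfaces,
quadrics and Grassmannians.
-/

namespace Pool.Agent.Results.MP_17a322_nt.PointsOnLinearSubspaces

open NumberField IsDedekindDomain MvPolynomial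

/-- The value of the linear form with the coefficients `h`. -/
def linearForm {K Ω : Type} [Field K] [Field Ω] [Algebra K Ω] {M : ℕ} (h : Fin M → K)
    (z : Fin M → Ω) : Ω := ∑ l, algebraMap K Ω (h l) * z l

/-- The tangent space at `z` of the affine cone over the variety with the equations `G i`: the vectors
`v` with `∑ j, (∂_j G i)(z) v_j = 0` for all `i`. -/
noncomputable def tangentSpace {k Ω : Type} [Field k] [Field Ω] [Algebra k Ω] {M g : ℕ}
    (G : Fin g → MvPolynomial (Fin M) k) (z : Fin M → Ω) : Submodule Ω (Fin M → Ω) :=
  ⨅ i, LinearMap.ker (∑ j, aeval z (pderiv j (G i)) • LinearMap.proj (R := Ω) (φ := fun _ => Ω) j)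

/-- The variety with the equations `G i` is smooth of dimension `n`: at all points over all extension
fields the tangent space of the cone has dimension `n + 1`. -/
def IsSmooth {k : Type} [Field k] {M g : ℕ} (n : ℕ) (G : Fin g → MvPolynomial (Fin M) k) : Prop :=
  ∀ (Ω : Type) [Field Ω] [Algebra k Ω] (z : Fin M → Ω), z ≠ 0 → (∀ i, aeval z (G i) = 0) →
    Module.finrank Ω (tangentSpace G z) = n + 1

/-- The hyperplane sections `H s = 0` have normal crossings on the (smooth) variety: at each of its
points `z` over each extension field the linear forms `H s` which vanish at `z` are linearly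
independent on the tangent space. -/
def IsNormalCrossings {k K : Type} [Field k] [Field K] [Algebra k K] {M g q : ℕ}
    (G : Fin g → MvPolynomial (Fin M) k) (H : Fin q → Fin M → K) : Prop :=
  ∀ (Ω : Type) [Field Ω] [Algebra k Ω] [Algebra K Ω] [IsScalarTower k K Ω] (z : Fin M → Ω),
    z ≠ 0 → (∀ i, aeval z (G i) = 0) → ∀ c : Fin q → Ω,
    (∀ s, c s ≠ 0 → linearForm (H s) z = 0) →
    (∀ v ∈ tangentSpace G z, ∑ s, c s * linearForm (H s) v = 0) → c = 0

/-- The absolute logarithmic height of a vector over `K`. -/
noncomputable def height {K : Type} [Field K] [NumberField K] {ι : Type} [Finite ι]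
    (x : ι → K) : ℝ := Height.logHeight x / Module.finrank ℚ K

/-- The Plücker coordinates of the linear subspace with the basis `u`: the maximal minors. -/
def plucker {K : Type} [Field K] {M N : ℕ} (u : Fin N → Fin M → K) : (Fin N → Fin M) → K :=
  fun J => (Matrix.of fun i c => u i (J c)).det

/-- The point `x` lies on a linear subspace over `K` of some dimension which is contained in the
variety with the equations `G i` and has height at most `B`: there are linearly independent vectors
`u i` whose span contains `x`, all the vectors of the span satisfy the equations, and the height of the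
vector of the Plücker coordinates is at most `B`. -/
def OnSubspaceOfHeightLE {k K : Type} [Field k] [Field K] [NumberField K] [Algebra k K] {M g : ℕ}
    (G : Fin g → MvPolynomial (Fin M) k) (x : Fin M → K) (B : ℝ) : Prop :=
  ∃ (N : ℕ) (u : Fin N → Fin M → K), LinearIndependent K u ∧
    x ∈ Submodule.span K (Set.range u) ∧
    (∀ z ∈ Submodule.span K (Set.range u), ∀ i, aeval z (G i) = 0) ∧ height (plucker u) ≤ B

/-- The columns of `A` are a basis of the tangent space of the cone at `x` (for a smooth variety of
dimension `n`). -/
def IsTangentBasis {k K : Type} [Field k] [Field K] [Algebra k K] {M g n : ℕ}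
    (G : Fin g → MvPolynomial (Fin M) k) (x : Fin M → K) (A : Matrix (Fin M) (Fin (n + 1)) K) :
    Prop :=
  LinearIndependent K A.col ∧ ∀ c, A.col c ∈ tangentSpace G x

/-- The height `h_K(x)` for the canonical class `K` of the variety: the Gauss map `γ` sends a point to
its embedded tangent space, `γ^* O(1) = K + (n + 1) H` for the hyperplane class `H`; `h_K(x)` is the
height of the vector of the maximal minors of a basis `A` of the tangent space minus
`(n + 1) h(x)`. -/
noncomputable def canonicalHeight {K : Type} [Field K] [NumberField K] {M n : ℕ} (x : Fin M → K)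
    (A : Matrix (Fin M) (Fin (n + 1)) K) : ℝ :=
  height (fun J : Fin (n + 1) → Fin M => (A.submatrix J id).det) - (n + 1) * height x

/-- The local height `∑ s, log (max_j |x_j| / |H_s(x)|)` of the divisor with the components `H s = 0`,
for an absolute value of `K`. -/
noncomputable def weil {K : Type} [Field K] {M q : ℕ} (f : AbsoluteValue K ℝ)
    (H : Fin q → Fin M → K) (x : Fin M → K) : ℝ :=
  ∑ s, Real.log ((⨆ j, f (x j)) / f (linearForm (H s) x))

/-- The proximity function `m_{S,D}(x)`, where `S` consists of the archimedean places of `K` and the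
primes in `S`: the sum of the local heights over the infinite places `w` (with the factor `[K_w : ℝ]`)
and over the primes in `S` (with the absolute value `N(w) ^ (- ord_w)`), divided by `[K : ℚ]`. -/
noncomputable def proximity {K : Type} [Field K] [NumberField K] {M q : ℕ}
    (S : Finset (HeightOneSpectrum (𝓞 K))) (H : Fin q → Fin M → K) (x : Fin M → K) : ℝ :=
  (∑ w : InfinitePlace K, (w.mult : ℝ) * weil w.1 H x +
    ∑ w ∈ S, weil (FinitePlace.mk w).1 H x) / Module.finrank ℚ K

theorem mem_tangentSpace {k Ω : Type} [Field k] [Field Ω] [Algebra k Ω] {M g : ℕ}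
    {G : Fin g → MvPolynomial (Fin M) k} {z v : Fin M → Ω} :
    v ∈ tangentSpace G z ↔ ∀ i, ∑ j, aeval z (pderiv j (G i)) * v j = 0 := by
  unfold tangentSpace
  rw [Submodule.mem_iInf]
  refine forall_congr' fun i => ?_
  rw [LinearMap.mem_ker, LinearMap.sum_apply]
  rfl

theorem tangentSpace_eq {k Ω : Type} [Field k] [Field Ω] [Algebra k Ω] {M g : ℕ}
    (G : Fin g → MvPolynomial (Fin M) k) (z : Fin M → Ω) :
    tangentSpace G z = Pool.Agent.N750.TS G z := by
  ext v
  rw [mem_tangentSpace, Pool.Agent.N750.mem_TS]

/-- **Vojta's inequality for the points of `X` on linear subspaces of small height.** Let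
`X ⊂ ℙ^(M - 1)` be a smooth projective variety over the number field `k` of dimension `n ≥ 1`, with
the prime ideal generated by the forms `G i`, let `K` be a finite extension of `k` and let `H s` be
linear forms over `K` whose hyperplane sections have normal crossings on `X`; `D` is their sum.
There is a form `Φ` over `k` which does not vanish on `X` such that for every finite set `S` of primes
of `K` (the archimedean places are always added), every `ε > 0` and every `B` there are `δ > 0` and `C`
with the following property: for every point `x` of `X(K)` outside `D` and `Φ = 0` which lies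
on a linear subspace over `K` contained in `X` of height at most `δ h(x) + B`, Vojta's inequality
`m_{S,D}(x) + h_K(x) ≤ ε h(x) + C` holds. -/
theorem result (k K : Type) [Field k] [NumberField k] [Field K] [NumberField K] [Algebra k K]
    (n M g q : ℕ) (hn : 1 ≤ n) (G : Fin g → MvPolynomial (Fin M) k) (e : Fin g → ℕ)
    (hG : ∀ i, (G i).IsHomogeneous (e i)) (hI : (Ideal.span (Set.range G)).IsPrime)
    (hX : IsSmooth n G) (H : Fin q → Fin M → K) (hD : IsNormalCrossings G H) :
    ∃ (m : ℕ) (Φ : MvPolynomial (Fin M) k), Φ ∉ Ideal.span (Set.range G) ∧ Φ.IsHomogeneous m ∧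
      ∀ (S : Finset (HeightOneSpectrum (𝓞 K))) (ε B : ℝ), 0 < ε →
      ∃ δ C : ℝ, 0 < δ ∧ ∀ x : Fin M → K, x ≠ 0 → (∀ s, linearForm (H s) x ≠ 0) →
        aeval x Φ ≠ 0 → OnSubspaceOfHeightLE G x (δ * height x + B) →
        ∀ A : Matrix (Fin M) (Fin (n + 1)) K, IsTangentBasis G x A →
        proximity S H x + canonicalHeight x A ≤ ε * height x + C := by
  classical
  obtain ⟨n', rfl⟩ : ∃ n', n = n' + 1 := ⟨n - 1, by omega⟩
  have hsm : Pool.Agent.N750.Sm (n' + 1) G := by
    intro Ω _ _ z hz hzG
    rw [← tangentSpace_eq]
    exact hX Ω z hz hzG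
  have hnc : Pool.Agent.N750.NCs G H := by
    intro Ω _ _ _ _ z hz hzG c hc hv
    refine hD Ω z hz hzG c (fun s hs => hc s hs) (fun v hvm => hv v ?_)
    rw [← tangentSpace_eq]
    exact hvm
  have hd : (0 : ℝ) < Module.finrank ℚ K := by exact_mod_cast Module.finrank_pos
  obtain ⟨m, Φ, hΦm, hΦI, hmain⟩ := Pool.Agent.N750.main_Sr G e hG hI hsm H hnc
  refine ⟨m, Φ, hΦI, hΦm, fun S ε B hε => ?_⟩
  obtain ⟨δ, C, hδ, h⟩ := hmain S (Module.finrank ℚ K * B) ε hε
  refine ⟨δ, C / Module.finrank ℚ K, hδ, ?_⟩
  intro x hx0 hxF hxΦ hsub A hA
  obtain ⟨N, u, hu, hxu, huX, hph⟩ := hsub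
  have hht : ∀ {ι : Type} [Finite ι] (y : ι → K),
      Height.logHeight y = Module.finrank ℚ K * height y := by
    intro ι _ y
    unfold height
    field_simp
  have hTB : Pool.Agent.N750.IsTB G x (fun l c => A l c) := by
    refine ⟨hA.1, fun c => ?_⟩
    rw [← tangentSpace_eq]
    exact hA.2 c
  have h1 := h x hx0 hxF hxΦ N u hu hxu huX (by
    have e1 : (fun J : Fin N → Fin M => (Matrix.of fun i c => u i (J c)).det) = plucker u := rfl
    rw [e1, hht, hht]
    have e2 := mul_le_mul_of_nonneg_left hph hd.le
    linarith) (fun l c => A l c) hTB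
  have hweil : ∀ f : AbsoluteValue K ℝ, ∑ s, (Real.log (Pool.Agent.W180.OP.nrm f x) -
      Real.log (f (Pool.Agent.N750.lv (H s) x))) = weil f H x := by
    intro f
    unfold weil
    refine Finset.sum_congr rfl fun s _ => ?_
    have e1 : (⨆ j, f (x j)) = Pool.Agent.W180.OP.nrm f x := rfl
    have e2 : linearForm (H s) x = Pool.Agent.N750.lv (H s) x := rfl
    have e3 : f (Pool.Agent.N750.lv (H s) x) ≠ 0 := (f.pos_iff.2 (hxF s)).ne'
    rw [e1, e2, Real.log_div (Pool.Agent.W180.OP.nrm_pos f hx0).ne' e3]
  simp only [hweil] at h1
  have h2 : Module.finrank ℚ K * proximity S H x =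
      ∑ w : InfinitePlace K, (w.mult : ℝ) * weil w.1 H x +
        ∑ w ∈ S, weil (FinitePlace.mk w).1 H x := by
    unfold proximity
    field_simp
  have h2' : Module.finrank ℚ K * canonicalHeight x A =
      Height.logHeight (Pool.Agent.N750.mv (fun l c => A l c)) -
        (n' + 2) * Height.logHeight x := by
    have e1 : Pool.Agent.N750.mv (fun l c => A l c) =
        fun J : Fin (n' + 1 + 1) → Fin M => (A.submatrix J id).det := rfl
    unfold canonicalHeight
    rw [e1, hht, hht]
    push_cast
    ring
  have h4 : Module.finrank ℚ K * (proximity S H x + canonicalHeight x A) ≤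
      Module.finrank ℚ K * (ε * height x + C / Module.finrank ℚ K) := by
    rw [mul_add, h2, h2']
    have e1 : Module.finrank ℚ K * (ε * height x + C / Module.finrank ℚ K) =
        ε * Height.logHeight x + C := by
      rw [hht x]
      field_simp
    rw [e1]
    have e2 : ∑ w : InfinitePlace K, (w.mult : ℝ) * weil w.1 H x +
        ∑ w ∈ S, weil (FinitePlace.mk w).1 H x +
          Height.logHeight (Pool.Agent.N750.mv (fun l c => A l c)) ≤
          (n' + 2 + ε) * Height.logHeight x + C := h1
    linarith
  exact le_of_mul_le_mul_left h4 hd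

end Pool.Agent.Results.MP_17a322_nt.PointsOnLinearSubspaces
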