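import Pool.Agent.N120.TH.AllR

/-!
# Integral points on ramified covers of tori: a power saving
-/

set_option autoImplicit false

namespace Pool.Agent.Results.MP_17a322_nt.RamifiedCoversOfTori

open Polynomial

/-- the value `f(x, w)` of the polynomial `f ∈ F[x_1, …, x_n][y]` at `x_1, …, x_n ∈ Fˣ`, `w ∈ F` -/
noncomputable def val {F : Type} [Field F] {n : ℕ} (f : Polynomial (MvPolynomial (Fin n) F))
    (x : Fin n → Fˣ) (w : F) : F :=
  (f.map (MvPolynomial.eval (fun i => ((x i : Fˣ) : F)))).eval w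

/-- the polynomial `f` over an extension `F` of `K` -/
noncomputable def extend {K : Type} [Field K] (F : Type) [Field F] [Algebra K F] {n : ℕ}
    (f : Polynomial (MvPolynomial (Fin n) K)) : Polynomial (MvPolynomial (Fin n) F) :=
  f.map (MvPolynomial.map (algebraMap K F))

/-- the polynomial `f(x_1 ^ m, …, x_n ^ m, h(x))` over the algebraic closure -/
noncomputable def pullback {K : Type} [Field K] {n : ℕ} (m : ℕ)
    (f : Polynomial (MvPolynomial (Fin n) K)) (h : MvPolynomial (Fin n) (AlgebraicClosure K)) :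
    MvPolynomial (Fin n) (AlgebraicClosure K) :=
  ((extend (AlgebraicClosure K) f).map
    (MvPolynomial.expand m : MvPolynomial (Fin n) (AlgebraicClosure K) →ₐ[AlgebraicClosure K]
      MvPolynomial (Fin n) (AlgebraicClosure K)).toRingHom).eval h

/-- every map `x ↦ (x_1 ^ m, …, x_n ^ m, h(x))` from the torus to `V: f = 0` has its image in
`V': G_1 = ⋯ = G_s = 0` -/
def SectionsIn {K : Type} [Field K] {n s : ℕ} (f : Polynomial (MvPolynomial (Fin n) K))
    (G : Fin s → Polynomial (MvPolynomial (Fin n) K)) : Prop :=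
  ∀ m : ℕ, 1 ≤ m → ∀ h : MvPolynomial (Fin n) (AlgebraicClosure K),
    pullback m f h = 0 → ∀ j, pullback m (G j) h = 0

/-- the value `f(x, w)` at a complex point -/
noncomputable def cval {K : Type} [Field K] (σ : K →+* ℂ) {n : ℕ}
    (f : Polynomial (MvPolynomial (Fin n) K)) (x : Fin n → ℂ) (w : ℂ) : ℂ :=
  (f.map (MvPolynomial.eval₂Hom σ x)).eval w

/-- every nonconstant entire curve in `V_σ ⊂ (ℂ^*) ^ n × ℂ` lies in `V'_σ` -/
def EntireCurvesIn {K : Type} [Field K] (σ : K →+* ℂ) {n s : ℕ}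
    (f : Polynomial (MvPolynomial (Fin n) K))
    (G : Fin s → Polynomial (MvPolynomial (Fin n) K)) : Prop :=
  ∀ (X : Fin n → ℂ → ℂ) (Y : ℂ → ℂ), (∀ i, Differentiable ℂ (X i)) → (∀ i z, X i z ≠ 0) →
    Differentiable ℂ Y → (∀ z, cval σ f (fun i => X i z) (Y z) = 0) →
    (∃ z w, (∃ i, X i z ≠ X i w) ∨ Y z ≠ Y w) →
    ∀ j z, cval σ (G j) (fun i => X i z) (Y z) = 0

/-- the points `(x, w)` of `V(F)` outside `V'` with `x_i ∈ Γ` and `x_i / y_i` of (logarithmic, relative
to `F`) height at most `T` -/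
def points {F : Type} [Field F] [NumberField F] {n s : ℕ}
    (f : Polynomial (MvPolynomial (Fin n) F)) (G : Fin s → Polynomial (MvPolynomial (Fin n) F))
    (Γ : Subgroup Fˣ) (y : Fin n → Fˣ) (T : ℝ) : Set ((Fin n → Fˣ) × F) :=
  {z | (∀ i, z.1 i ∈ Γ ∧ Height.logHeight₁ ((z.1 i / y i : Fˣ) : F) ≤ T) ∧
    val f z.1 z.2 = 0 ∧ ∃ j, val (G j) z.1 z.2 ≠ 0}

/-- a power saving in the number of the points outside `V'`, over all number fields and for all finitely
generated groups `Γ` of rank `r ≥ 2`, with any exponent `θ < (r - 1) / (5 r + 3)`, uniformly in the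
centre -/
def PowerSaving {K : Type} [Field K] [NumberField K] {n s : ℕ}
    (f : Polynomial (MvPolynomial (Fin n) K))
    (G : Fin s → Polynomial (MvPolynomial (Fin n) K)) : Prop :=
  ∀ (F : Type) [Field F] [NumberField F] [Algebra K F] (Γ : Subgroup Fˣ), Γ.FG →
    2 ≤ Module.finrank ℤ (Additive Γ) → ∀ θ : ℝ, 0 < θ →
    θ < ((Module.finrank ℤ (Additive Γ) : ℝ) - 1) / (5 * Module.finrank ℤ (Additive Γ) + 3) →
    ∃ C : ℝ, ∀ y : Fin n → Fˣ, (∀ i, y i ∈ Γ) →
      ∀ T : ℝ, 1 ≤ T → (points (extend F f) (fun j => extend F (G j)) Γ y T).Finite ∧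
        ((points (extend F f) (fun j => extend F (G j)) Γ y T).ncard : ℝ) ≤
          C * T ^ ((n : ℝ) * Module.finrank ℤ (Additive Γ) - θ)

/-- the points outside `V'` have lower density zero in `Γ ^ n` -/
def NotPositive {K : Type} [Field K] [NumberField K] {n s : ℕ}
    (f : Polynomial (MvPolynomial (Fin n) K))
    (G : Fin s → Polynomial (MvPolynomial (Fin n) K)) : Prop :=
  ∀ (F : Type) [Field F] [NumberField F] [Algebra K F] (Γ : Subgroup Fˣ), Γ.FG →
    2 ≤ Module.finrank ℤ (Additive Γ) → ∀ c : ℝ, 0 < c → ∀ T0 : ℝ, ∃ T : ℝ, T0 ≤ T ∧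
      (points (extend F f) (fun j => extend F (G j)) Γ 1 T).Finite ∧
        ((points (extend F f) (fun j => extend F (G j)) Γ 1 T).ncard : ℝ) <
          c * T ^ ((n : ℝ) * Module.finrank ℤ (Additive Γ))

theorem result (K : Type) [Field K] [NumberField K] (n s : ℕ) (hn : 1 ≤ n)
    (f : Polynomial (MvPolynomial (Fin n) K)) (hf : f.Monic)
    (G : Fin s → Polynomial (MvPolynomial (Fin n) K)) :
    (∀ σ : K →+* ℂ, EntireCurvesIn σ f G → PowerSaving f G) ∧
      [SectionsIn f G, PowerSaving f G, NotPositive f G].TFAE := by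
  have h := N120.TH.Fin4R_.tfae N120.TH.oneR N120.TH.alg N120.TH.t_FCT N120.TH.conv hn f hf G
  refine ⟨fun σ hσ => ?_, h⟩
  exact (h.out 0 1).1 (N120.TH.t_ENT K σ n s f G hn hσ)

end Pool.Agent.Results.MP_17a322_nt.RamifiedCoversOfTori
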